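import Mathlib

/-!
# Matroidal families of graphs and complete bipartite graphs

We show that a matroidal family of graphs can contain `K_{m,n}` (with `m ≥ 1`) only if
`n ≤ m ^ 2 - m + 1`.  In particular no matroidal family contains `K_{3,8}`, which answers the
question whether every `K_{m,n}` with `n ≥ m ≥ 3` lies in some matroidal family in the negative.
The count families show that the bound `m ^ 2 - m + 1` cannot be lowered.
-/

set_option autoImplicit false

namespace Pool.Agent.Results.MP_41a700_co.LargeBipartite

open Set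

/-- A finite simple graph, represented on a vertex set `Fin k`. -/
abbrev FinGraph : Type := Σ k : ℕ, SimpleGraph (Fin k)

/-- The simple graph `H` (on any vertex type) is isomorphic to a member of the set `P`. -/
def IsoMember (P : Set FinGraph) {W : Type} (H : SimpleGraph W) : Prop :=
  ∃ x ∈ P, Nonempty (H ≃g x.2)

/-- A matroidal family: a nonempty set of finite connected simple graphs, closed under
isomorphism, such that for every finite simple graph `G` the edge sets of the subgraphs of `G`
that are isomorphic to a member of the family are exactly the circuits of a matroid on the edge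
set of `G`. -/
structure IsMatroidalFamily (P : Set FinGraph) : Prop where
  nonempty : P.Nonempty
  connected : ∀ x ∈ P, x.2.Connected
  iso_closed : ∀ x ∈ P, ∀ y : FinGraph, Nonempty (x.2 ≃g y.2) → y ∈ P
  circuits : ∀ (V : Type) [Finite V] (G : SimpleGraph V),
    ∃ M : Matroid (Sym2 V), M.E = G.edgeSet ∧
      ∀ C : Set (Sym2 V), M.IsCircuit C ↔
        ∃ H : G.Subgraph, IsoMember P H.coe ∧ H.edgeSet = C

section Proof

variable {P : Set FinGraph} {A V : Type}

/-- Every injective copy of a graph of the family in a complete graph is a circuit. -/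
lemma circuit_of_injective {K : SimpleGraph A}
    (hK : IsoMember P K) {M : Matroid (Sym2 V)}
    (hM : ∀ C : Set (Sym2 V), M.IsCircuit C ↔
        ∃ H : (⊤ : SimpleGraph V).Subgraph, IsoMember P H.coe ∧ H.edgeSet = C)
    (f : A → V) (hf : Function.Injective f) :
    M.IsCircuit (Sym2.map f '' K.edgeSet) := by
  obtain ⟨x, hx, ⟨e⟩⟩ := hK
  let φ : SimpleGraph.Copy K (⊤ : SimpleGraph V) :=
    ⟨⟨f, fun {a b} h => by simpa using hf.ne h.ne⟩, hf⟩
  refine (hM _).2 ⟨φ.toSubgraph, ⟨x, hx, ⟨φ.isoToSubgraph.symm.trans e⟩⟩, ?_⟩
  rw [SimpleGraph.Subgraph.edgeSet_map, SimpleGraph.Subgraph.edgeSet_top]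
  rfl

/-- If all but one of the edges of a copy of `K` lie in a flat, so does the remaining one. -/
lemma mem_closure_of_circuit {K : SimpleGraph A}
    (hK : IsoMember P K) {M : Matroid (Sym2 V)}
    (hM : ∀ C : Set (Sym2 V), M.IsCircuit C ↔
        ∃ H : (⊤ : SimpleGraph V).Subgraph, IsoMember P H.coe ∧ H.edgeSet = C)
    (f : A → V) (hf : Function.Injective f) (X : Set (Sym2 V)) (e : Sym2 V)
    (he : e ∈ Sym2.map f '' K.edgeSet)
    (h : ∀ e' ∈ Sym2.map f '' K.edgeSet, e' ≠ e → e' ∈ M.closure X) :
    e ∈ M.closure X := by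
  have hC := circuit_of_injective hK hM f hf
  have h1 := hC.mem_closure_sdiff_singleton_of_mem he
  have h2 : (Sym2.map f '' K.edgeSet) \ {e} ⊆ M.closure X := by
    rintro e' ⟨he', hne⟩
    exact h e' he' (by simpa using hne)
  exact M.closure_subset_closure_of_subset_closure h2 h1

end Proof

/-- **Main theorem.** If `m ≥ 1` and `n > m ^ 2 - m + 1`, then no matroidal family of graphs
contains the complete bipartite graph `K_{m,n}`. -/
theorem result (m n : ℕ) (hm : 1 ≤ m) (hmn : m ^ 2 + 1 < m + n)
    (P : Set FinGraph) (hP : IsMatroidalFamily P) :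
    ¬ IsoMember P (completeBipartiteGraph (Fin m) (Fin n)) := by
  intro hK
  obtain ⟨k, rfl⟩ : ∃ k, m = k + 1 := ⟨m - 1, by omega⟩
  obtain ⟨l, rfl⟩ : ∃ l, n = l + 1 := by
    refine ⟨n - 1, ?_⟩
    have : (k + 1) ^ 2 = k ^ 2 + 2 * k + 1 := by ring
    omega
  set A : Type := Fin (k + 1) ⊕ Fin (l + 1) with hA
  set K : SimpleGraph A := completeBipartiteGraph (Fin (k + 1)) (Fin (l + 1)) with hKdef
  obtain ⟨M, hME, hM⟩ := hP.circuits (A ⊕ A) ⊤
  have hKedge : ∀ e : Sym2 A, e ∈ K.edgeSet ↔ ∃ i j, e = s(Sum.inl i, Sum.inr j) := by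
    intro e
    induction e using Sym2.ind with
    | _ a b =>
      rw [SimpleGraph.mem_edgeSet, hKdef]
      rcases a with a | a <;> rcases b with b | b <;> simp [completeBipartiteGraph]
  -- basis of the left part
  set E1 : Set (Sym2 (A ⊕ A)) := Sym2.map Sum.inl '' (⊤ : SimpleGraph A).edgeSet with hE1
  have hE1sub : E1 ⊆ M.E := by
    rw [hME]
    rintro _ ⟨e, he, rfl⟩
    induction e using Sym2.ind with
    | _ a b => simpa using he
  obtain ⟨I1, hI1⟩ := M.exists_isBasis E1 hE1sub
  -- independent set in the right part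
  set g : Fin (k + 1) × Fin (l + 1) → Sym2 (A ⊕ A) :=
    fun p => s(Sum.inr (Sum.inl p.1), Sum.inr (Sum.inr p.2)) with hg
  have hginj : Function.Injective g := by
    rintro ⟨i, j⟩ ⟨i', j'⟩ h
    rw [hg, Sym2.eq_iff] at h
    rcases h with ⟨h1, h2⟩ | ⟨h1, -⟩
    · exact Prod.ext (Sum.inl_injective (Sum.inr_injective h1))
        (Sum.inr_injective (Sum.inr_injective h2))
    · exact absurd (Sum.inr_injective h1) (by simp)
  have hKr : M.IsCircuit (Set.range g) := by
    have := circuit_of_injective hK hM (Sum.inr : A → A ⊕ A) Sum.inr_injective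
    convert this using 1
    ext e
    constructor
    · rintro ⟨p, rfl⟩
      exact ⟨s(Sum.inl p.1, Sum.inr p.2), (hKedge _).2 ⟨_, _, rfl⟩, rfl⟩
    · rintro ⟨e, he, rfl⟩
      obtain ⟨i, j, rfl⟩ := (hKedge _).1 he
      exact ⟨(i, j), rfl⟩
  set I2 : Set (Sym2 (A ⊕ A)) := Set.range g \ {g (0, 0)} with hI2
  have hI2ind : M.Indep I2 := hKr.sdiff_singleton_indep ⟨_, rfl⟩
  -- the side of a vertex
  have hI1side : ∀ x y : A ⊕ A, s(x, y) ∈ I1 → x.isLeft = true ∧ y.isLeft = true := by
    intro x y h
    obtain ⟨e, -, he⟩ := hI1.subset h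
    induction e using Sym2.ind with
    | _ a b =>
      rw [Sym2.map_mk, Sym2.eq_iff] at he
      rcases he with ⟨rfl, rfl⟩ | ⟨rfl, rfl⟩ <;> simp
  have hI2side : ∀ x y : A ⊕ A, s(x, y) ∈ I2 → x.isLeft = false ∧ y.isLeft = false := by
    rintro x y ⟨⟨p, hp⟩, -⟩
    rw [hg, Sym2.eq_iff] at hp
    rcases hp with ⟨rfl, rfl⟩ | ⟨rfl, rfl⟩ <;> simp
  -- independence of the union, because circuits are connected
  have hind : M.Indep (I1 ∪ I2) := by
    rw [Matroid.indep_iff_forall_subset_not_isCircuit
      (union_subset hI1.indep.subset_ground hI2ind.subset_ground)]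
    intro C hCsub hC
    obtain ⟨H, ⟨x, hx, ⟨e⟩⟩, hHC⟩ := (hM C).1 hC
    have hconn : H.coe.Connected := e.connected_iff.2 (hP.connected x hx)
    have hadj : ∀ a b : H.verts, H.coe.Adj a b → (a : A ⊕ A).isLeft = (b : A ⊕ A).isLeft := by
      intro a b hab
      have hmem : s((a : A ⊕ A), (b : A ⊕ A)) ∈ C := by
        rw [← hHC]; exact hab
      rcases hCsub hmem with h | h
      · rw [(hI1side _ _ h).1, (hI1side _ _ h).2]
      · rw [(hI2side _ _ h).1, (hI2side _ _ h).2]
    have hall : ∀ a b : H.verts, (a : A ⊕ A).isLeft = (b : A ⊕ A).isLeft := by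
      intro a b
      obtain ⟨w⟩ := hconn.preconnected a b
      induction w with
      | nil => rfl
      | cons h _ ih => exact (hadj _ _ h).trans ih
    obtain ⟨e0, he0⟩ := hC.nonempty
    have hvert : ∀ a b : A ⊕ A, s(a, b) ∈ C → a ∈ H.verts := by
      intro a b hab
      rw [← hHC] at hab
      exact H.edge_vert hab
    rcases hCsub he0 with h0 | h0
    · -- everything on the left
      have hC1 : C ⊆ I1 := by
        intro e' he'
        rcases hCsub he' with h | h
        · exact h
        · exfalso
          induction e0 using Sym2.ind with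
          | _ a b =>
            induction e' using Sym2.ind with
            | _ a' b' =>
              have h1 := hall ⟨a, hvert a b he0⟩ ⟨a', hvert a' b' he'⟩
              simp only [(hI1side _ _ h0).1, (hI2side _ _ h).1] at h1
              cases h1
      exact hC.not_indep (hI1.indep.subset hC1)
    · have hC2 : C ⊆ I2 := by
        intro e' he'
        rcases hCsub he' with h | h
        · exfalso
          induction e0 using Sym2.ind with
          | _ a b =>
            induction e' using Sym2.ind with
            | _ a' b' =>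
              have h1 := hall ⟨a, hvert a b he0⟩ ⟨a', hvert a' b' he'⟩
              simp only [(hI2side _ _ h0).1, (hI1side _ _ h).1] at h1
              cases h1
        · exact h
      exact hC.not_indep (hI2ind.subset hC2)
  -- the spanning set
  set J : Set (Sym2 (A ⊕ A)) :=
    Set.range (fun p : A × Fin k => s(Sum.inr p.1, Sum.inl (Sum.inl p.2.castSucc))) with hJ
  have hJE : J ⊆ M.E := by
    rw [hME]
    rintro _ ⟨p, rfl⟩
    simp
  have hXE : I1 ∪ J ⊆ M.E := union_subset hI1.indep.subset_ground hJE
  have hleft : ∀ a b : A, a ≠ b → s(Sum.inl a, Sum.inl b) ∈ M.closure (I1 ∪ J) := by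
    intro a b hab
    have h1 : s(Sum.inl a, Sum.inl b) ∈ E1 := ⟨s(a, b), by simpa using hab, rfl⟩
    exact M.closure_subset_closure subset_union_left (hI1.subset_closure h1)
  have hJcl : ∀ (b : A) (i : Fin k),
      s(Sum.inr b, Sum.inl (Sum.inl i.castSucc)) ∈ M.closure (I1 ∪ J) := by
    intro b i
    exact M.mem_closure_of_mem (Or.inr ⟨(b, i), rfl⟩) hXE
  -- edges between the two sides
  have hcross : ∀ b a : A, s(Sum.inr b, Sum.inl a) ∈ M.closure (I1 ∪ J) := by
    intro b a
    by_cases ha : ∃ i : Fin k, a = Sum.inl i.castSucc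
    · obtain ⟨i, rfl⟩ := ha
      exact hJcl b i
    · push Not at ha
      set last : A := Sum.inl (Fin.last k) with hlast
      set σ : Equiv.Perm A := Equiv.swap last a with hσ
      have hσlast : σ last = a := Equiv.swap_apply_left _ _
      have hσfix : ∀ i : Fin k, σ (Sum.inl i.castSucc) = Sum.inl i.castSucc := by
        intro i
        refine Equiv.swap_apply_of_ne_of_ne ?_ (fun h => ha i h.symm)
        intro h
        exact (Fin.castSucc_lt_last i).ne (Sum.inl_injective h)
      set r0 : A := Sum.inr 0 with hr0
      set f : A → A ⊕ A := Function.update (Sum.inl ∘ σ) r0 (Sum.inr b) with hf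
      have hf0 : f r0 = Sum.inr b := Function.update_self _ _ _
      have hfne : ∀ x, x ≠ r0 → f x = Sum.inl (σ x) := by
        intro x hx
        rw [hf, Function.update_of_ne hx]; rfl
      have hfinj : Function.Injective f := by
        intro x y hxy
        by_cases hx : x = r0 <;> by_cases hy : y = r0
        · rw [hx, hy]
        · rw [hx, hf0, hfne y hy] at hxy; cases hxy
        · rw [hy, hf0, hfne x hx] at hxy; cases hxy
        · rw [hfne x hx, hfne y hy] at hxy
          exact σ.injective (Sum.inl_injective hxy)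
      refine mem_closure_of_circuit hK hM f hfinj (I1 ∪ J) _ ?_ ?_
      · refine ⟨s(last, r0), (hKedge _).2 ⟨_, _, rfl⟩, ?_⟩
        rw [Sym2.map_mk, hf0, hfne last (by simp [hlast, hr0]), hσlast, Sym2.eq_swap]
      · rintro _ ⟨e, he, rfl⟩ hne
        obtain ⟨i, j, rfl⟩ := (hKedge _).1 he
        rw [Sym2.map_mk] at hne ⊢
        have hfi : f (Sum.inl i) = Sum.inl (σ (Sum.inl i)) := hfne _ (by simp [hr0])
        by_cases hj : j = 0
        · subst hj
          have hfj : f (Sum.inr 0) = Sum.inr b := hf0
          rw [hfi, hfj] at hne ⊢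
          rcases Fin.eq_castSucc_or_eq_last i with ⟨i', rfl⟩ | rfl
          · rw [hσfix, Sym2.eq_swap]
            exact hJcl b i'
          · exfalso
            apply hne
            have : σ (Sum.inl (Fin.last k)) = a := hσlast
            rw [this, Sym2.eq_swap]
        · have hfj : f (Sum.inr j) = Sum.inl (σ (Sum.inr j)) := by
            refine hfne _ ?_
            intro h
            exact hj (Sum.inr_injective h)
          rw [hfi, hfj]
          refine hleft _ _ ?_
          intro h
          have := σ.injective h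
          simp at this
  -- edges on the right side
  have hright : ∀ b b' : A, b ≠ b' → s(Sum.inr b, Sum.inr b') ∈ M.closure (I1 ∪ J) := by
    intro b b' hbb'
    set last : A := Sum.inl (Fin.last k) with hlast
    set r0 : A := Sum.inr 0 with hr0
    have hlr : last ≠ r0 := by simp [hlast, hr0]
    set f : A → A ⊕ A :=
      Function.update (Function.update Sum.inl last (Sum.inr b')) r0 (Sum.inr b) with hf
    have hf0 : f r0 = Sum.inr b := Function.update_self _ _ _
    have hf1 : f last = Sum.inr b' := by
      rw [hf, Function.update_of_ne hlr, Function.update_self]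
    have hfne : ∀ x, x ≠ r0 → x ≠ last → f x = Sum.inl x := by
      intro x hx hx'
      rw [hf, Function.update_of_ne hx, Function.update_of_ne hx']
    have hfinj : Function.Injective f := by
      intro x y hxy
      by_cases hx : x = r0 <;> by_cases hy : y = r0
      · rw [hx, hy]
      · by_cases hy' : y = last
        · rw [hx, hy', hf0, hf1] at hxy
          exact absurd (Sum.inr_injective hxy) hbb'
        · rw [hx, hf0, hfne y hy hy'] at hxy; cases hxy
      · by_cases hx' : x = last
        · rw [hy, hx', hf0, hf1] at hxy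
          exact absurd (Sum.inr_injective hxy).symm hbb'
        · rw [hy, hf0, hfne x hx hx'] at hxy; cases hxy
      · by_cases hx' : x = last <;> by_cases hy' : y = last
        · rw [hx', hy']
        · rw [hx', hf1, hfne y hy hy'] at hxy; cases hxy
        · rw [hy', hf1, hfne x hx hx'] at hxy; cases hxy
        · rw [hfne x hx hx', hfne y hy hy'] at hxy
          exact Sum.inl_injective hxy
    refine mem_closure_of_circuit hK hM f hfinj (I1 ∪ J) _ ?_ ?_
    · refine ⟨s(last, r0), (hKedge _).2 ⟨_, _, rfl⟩, ?_⟩
      rw [Sym2.map_mk, hf0, hf1, Sym2.eq_swap]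
    · rintro _ ⟨e, he, rfl⟩ hne
      obtain ⟨i, j, rfl⟩ := (hKedge _).1 he
      rw [Sym2.map_mk] at hne ⊢
      by_cases hj : j = 0
      · subst hj
        have hfj : f (Sum.inr 0) = Sum.inr b := hf0
        rcases Fin.eq_castSucc_or_eq_last i with ⟨i', rfl⟩ | rfl
        · have hfi : f (Sum.inl i'.castSucc) = Sum.inl (Sum.inl i'.castSucc) := by
            refine hfne _ (by simp [hr0]) ?_
            intro h
            exact (Fin.castSucc_lt_last i').ne (Sum.inl_injective h)
          rw [hfi, hfj, Sym2.eq_swap]
          exact hJcl b i'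
        · exfalso
          apply hne
          have : f (Sum.inl (Fin.last k)) = Sum.inr b' := hf1
          rw [this, hfj, Sym2.eq_swap]
      · have hfj : f (Sum.inr j) = Sum.inl (Sum.inr j) := by
          refine hfne _ ?_ (by simp [hlast])
          intro h
          exact hj (Sum.inr_injective h)
        rcases Fin.eq_castSucc_or_eq_last i with ⟨i', rfl⟩ | rfl
        · have hfi : f (Sum.inl i'.castSucc) = Sum.inl (Sum.inl i'.castSucc) := by
            refine hfne _ (by simp [hr0]) ?_
            intro h
            exact (Fin.castSucc_lt_last i').ne (Sum.inl_injective h)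
          rw [hfi, hfj]
          exact hleft _ _ (by simp)
        · have hfi : f (Sum.inl (Fin.last k)) = Sum.inr b' := hf1
          rw [hfi, hfj]
          exact hcross b' _
  have hspan : M.E ⊆ M.closure (I1 ∪ J) := by
    rw [hME]
    intro e he
    induction e using Sym2.ind with
    | _ x y =>
      have hxy : x ≠ y := by simpa using he
      rcases x with a | a <;> rcases y with b | b
      · exact hleft a b (fun h => hxy (by rw [h]))
      · rw [Sym2.eq_swap]; exact hcross b a
      · exact hcross a b
      · exact hright a b (fun h => hxy (by rw [h]))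
  -- counting
  have hcount : (I1 ∪ I2).encard ≤ I1.encard + J.encard := by
    calc (I1 ∪ I2).encard ≤ M.eRk (M.closure (I1 ∪ J)) :=
          hind.encard_le_eRk_of_subset (hind.subset_ground.trans hspan)
      _ = M.eRk (I1 ∪ J) := M.eRk_closure_eq _
      _ ≤ (I1 ∪ J).encard := M.eRk_le_encard _
      _ ≤ I1.encard + J.encard := encard_union_le _ _
  have hdisj : Disjoint I1 I2 := by
    rw [Set.disjoint_left]
    intro e h1 h2
    induction e using Sym2.ind with
    | _ x y =>
      have h3 := (hI1side _ _ h1).1
      rw [(hI2side _ _ h2).1] at h3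
      cases h3
  have hI1fin : I1.encard ≠ ⊤ := (Set.toFinite I1).encard_lt_top.ne
  rw [encard_union_eq hdisj] at hcount
  have hcount2 : I2.encard ≤ J.encard := (ENat.add_le_add_iff_left hI1fin).1 hcount
  have hJcard : J.encard ≤ ((k + 1 + (l + 1)) * k : ℕ) := by
    have h1 : J.encard ≤ (Set.univ : Set (A × Fin k)).encard := by
      rw [hJ, ← Set.image_univ]
      exact Set.encard_image_le _ _
    refine h1.trans ?_
    rw [Set.encard_univ, ENat.card_eq_coe_fintype_card]
    simp [hA]
  have hI2card : I2.encard + 1 = ((k + 1) * (l + 1) : ℕ) := by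
    rw [hI2, Set.encard_sdiff_singleton_add_one (Set.mem_range_self _), ← Set.image_univ,
      hginj.encard_image, Set.encard_univ, ENat.card_eq_coe_fintype_card]
    simp
  have hfinal : (((k + 1) * (l + 1) : ℕ) : ℕ∞) ≤ (((k + 1 + (l + 1)) * k + 1 : ℕ) : ℕ∞) := by
    rw [← hI2card]
    push_cast
    exact add_le_add (hcount2.trans (by exact_mod_cast hJcard)) le_rfl
  have hfinal' : (k + 1) * (l + 1) ≤ (k + 1 + (l + 1)) * k + 1 := by exact_mod_cast hfinal
  nlinarith

end Pool.Agent.Results.MP_41a700_co.LargeBipartite
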